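import Pool.Agent.W973.IP.Defs

/-!
# Existence of Fritz John points (Danskin, Caratheodory)
-/

set_option autoImplicit false

namespace Pool.Agent.W451.IP

open Pool.Agent.W973.IP MvPolynomial
open Filter Topology

/-- The convex hull of a compact set is compact. -/
theorem compact_hull {n : ℕ} {S : Set (Vec n)} (hS : IsCompact S) :
    IsCompact (convexHull ℝ S) := by
  classical
  let F : (Fin (n + 1) → ℝ) × (Fin (n + 1) → Vec n) → Vec n := fun p => ∑ i, p.1 i • p.2 i
  have hF : Continuous F := by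
    refine continuous_finsetSum _ fun i _ => ?_
    fun_prop
  have hK : IsCompact ((stdSimplex ℝ (Fin (n + 1))) ×ˢ
      (Set.pi Set.univ fun _ : Fin (n + 1) => S)) :=
    (isCompact_stdSimplex ℝ (Fin (n + 1))).prod (isCompact_univ_pi fun _ => hS)
  have hEq : convexHull ℝ S = F '' ((stdSimplex ℝ (Fin (n + 1))) ×ˢ
      (Set.pi Set.univ fun _ : Fin (n + 1) => S)) := by
    apply Set.Subset.antisymm
    · intro x hx
      obtain ⟨ι, hι, z, c, hz, haf, hc, hc1, hc0⟩ := eq_pos_convex_span_of_mem_convexHull hx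
      have hcard : Fintype.card ι ≤ n + 1 := by
        refine haf.card_le_finrank_succ.trans ?_
        have h1 := Submodule.finrank_le (vectorSpan ℝ (Set.range z))
        have h2 : Module.finrank ℝ (Vec n) = n := Module.finrank_fin_fun ℝ
        exact Nat.add_le_add_right (h1.trans h2.le) 1
      have hne : Nonempty ι := by
        by_contra hn
        rw [not_nonempty_iff] at hn
        rw [Finset.univ_eq_empty, Finset.sum_empty] at hc1
        exact zero_ne_one hc1
      obtain ⟨i₀⟩ := hne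
      have hcard' : Fintype.card ι ≤ Fintype.card (Fin (n + 1)) := by
        rw [Fintype.card_fin]; exact hcard
      obtain ⟨e⟩ := Function.Embedding.nonempty_of_card_le hcard'
      have he : Function.Injective e := e.injective
      have hcn : ∀ j, j ∉ Set.range e → Function.extend e c 0 j = 0 := by
        intro j hj
        rw [Function.extend_apply' _ _ _ (fun ⟨i, hi⟩ => hj ⟨i, hi⟩)]
        rfl
      refine ⟨(Function.extend e c 0, Function.extend e z fun _ => z i₀), ⟨⟨?_, ?_⟩, ?_⟩, ?_⟩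
      · intro j
        by_cases hj : j ∈ Set.range e
        · obtain ⟨i, rfl⟩ := hj
          simp only
          rw [he.extend_apply]
          exact (hc i).le
        · simp only
          rw [hcn j hj]
      · simp only
        rw [← hc1]
        exact (Fintype.sum_of_injective e he c _ hcn fun i => (he.extend_apply _ _ _).symm).symm
      · intro j _
        by_cases hj : j ∈ Set.range e
        · obtain ⟨i, rfl⟩ := hj
          simp only
          rw [he.extend_apply]
          exact hz ⟨i, rfl⟩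
        · simp only
          rw [Function.extend_apply' _ _ _ (fun ⟨i, hi⟩ => hj ⟨i, hi⟩)]
          exact hz ⟨i₀, rfl⟩
      · rw [← hc0]
        refine (Fintype.sum_of_injective e he (fun i => c i • z i) _ ?_ ?_).symm
        · intro j hj
          simp only
          rw [hcn j hj, zero_smul]
        · intro i
          simp only
          rw [he.extend_apply, he.extend_apply]
    · rintro x ⟨⟨c, z⟩, ⟨⟨hc, hc1⟩, hz⟩, rfl⟩
      exact (convex_convexHull ℝ S).sum_mem (fun i _ => hc i) hc1
        fun i _ => subset_convexHull ℝ S (hz i (Set.mem_univ i))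
  rw [hEq]
  exact hK.image hF

/-- Danskin: zero is in the convex hull of the gradients at the active points. -/
theorem zero_mem (n : ℕ) (g : Vec n → Vec n → ℝ) (gU : Fin n → Vec n → Vec n → ℝ)
    (u₀ : Vec n) (v B : ℝ)
    (hg : Continuous (fun p : Vec n × Vec n => g p.1 p.2))
    (hgU : ∀ l, Continuous (fun p : Vec n × Vec n => gU l p.1 p.2))
    (hd : ∀ (u w d : Vec n) (t : ℝ),
      HasDerivAt (fun t : ℝ => g (u + t • d) w) (∑ l, d l * gU l (u + t • d) w) t)
    (hvg : ∀ w, v ≤ g u₀ w) (hex : ∀ u, ‖u - u₀‖ ≤ 1 → ∃ w, g u w ≤ v ∧ ‖w‖ ≤ B)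
    (hB : ∀ w, g u₀ w ≤ v → ‖w‖ ≤ B) :
    (0 : Vec n) ∈ convexHull ℝ
      ((fun w : Vec n => (fun l => gU l u₀ w : Vec n)) '' {w : Vec n | g u₀ w ≤ v}) := by
  classical
  set A : Set (Vec n) := {w : Vec n | g u₀ w ≤ v} with hA
  set φ : Vec n → Vec n := fun w l => gU l u₀ w with hφ
  have hpair : Continuous fun w : Vec n => (u₀, w) := by fun_prop
  have hφc : Continuous φ := continuous_pi fun l => (hgU l).comp hpair
  have hAcl : IsClosed A := isClosed_le (hg.comp hpair) continuous_const
  have hAc : IsCompact A := by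
    refine Metric.isCompact_of_isClosed_isBounded hAcl ?_
    refine (Metric.isBounded_closedBall (x := (0 : Vec n)) (r := B)).subset ?_
    intro w hw
    simpa using hB w hw
  have hΓ : IsCompact (convexHull ℝ (φ '' A)) := compact_hull (hAc.image hφc)
  by_contra h0
  obtain ⟨f, a, h1, h2⟩ := geometric_hahn_banach_point_closed (convex_convexHull ℝ _)
    hΓ.isClosed h0
  have ha : 0 < a := by simpa using h1
  let d : Vec n := fun l => f (Pi.single l 1)
  have hfd : ∀ x : Vec n, f x = ∑ l, d l * x l := by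
    intro x
    have hx : x = ∑ l, x l • (Pi.single l (1 : ℝ) : Vec n) := by
      funext j
      simp [Finset.sum_apply, Pi.single_apply]
    conv_lhs => rw [hx]
    rw [map_sum]
    refine Finset.sum_congr rfl fun l _ => ?_
    rw [map_smul, smul_eq_mul, mul_comm]
  let t : ℕ → ℝ := fun k => 1 / ((k : ℝ) + 1) * (1 / (1 + ‖d‖))
  have hdn : 0 < 1 + ‖d‖ := by positivity
  have htpos : ∀ k, 0 < t k := fun k => by positivity
  have htlim : Tendsto t atTop (𝓝 0) := by
    have := (tendsto_one_div_add_atTop_nhds_zero_nat (𝕜 := ℝ)).mul_const (1 / (1 + ‖d‖))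
    simpa [t] using this
  have htn : ∀ k, ‖(u₀ + t k • d) - u₀‖ ≤ 1 := by
    intro k
    rw [add_sub_cancel_left, norm_smul, Real.norm_of_nonneg (htpos k).le]
    have h3 : 1 / ((k : ℝ) + 1) ≤ 1 := by
      rw [div_le_one (by positivity)]
      have : (0 : ℝ) ≤ k := Nat.cast_nonneg k
      linarith
    have h4 : 1 / (1 + ‖d‖) * ‖d‖ ≤ 1 := by
      rw [one_div, inv_mul_le_iff₀ hdn]
      linarith
    have h5 : 0 ≤ 1 / (1 + ‖d‖) * ‖d‖ := by positivity
    calc t k * ‖d‖ = 1 / ((k : ℝ) + 1) * (1 / (1 + ‖d‖) * ‖d‖) := by simp only [t]; ring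
      _ ≤ 1 * 1 := mul_le_mul h3 h4 h5 zero_le_one
      _ = 1 := one_mul 1
  choose w hw1 hw2 using fun k => hex (u₀ + t k • d) (htn k)
  have hmv : ∀ k, ∃ ξ ∈ Set.Ioo (0 : ℝ) (t k), ∑ l, d l * gU l (u₀ + ξ • d) (w k) ≤ 0 := by
    intro k
    obtain ⟨ξ, hξ, he⟩ := exists_hasDerivAt_eq_slope (fun s : ℝ => g (u₀ + s • d) (w k))
      (fun s : ℝ => ∑ l, d l * gU l (u₀ + s • d) (w k)) (htpos k)
      (fun s _ => (hd u₀ (w k) d s).continuousAt.continuousWithinAt)
      (fun s _ => hd u₀ (w k) d s)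
    refine ⟨ξ, hξ, ?_⟩
    rw [he]
    refine div_nonpos_of_nonpos_of_nonneg ?_ (by linarith [htpos k])
    have h6 := hw1 k
    have h7 := hvg (w k)
    simp only [zero_smul, add_zero]
    linarith
  choose ξ hξ hs using hmv
  obtain ⟨w', _, ψ, hψ, hlim⟩ := (isCompact_closedBall (0 : Vec n) B).tendsto_subseq
    (fun k => by simpa using hw2 k : ∀ k, w k ∈ Metric.closedBall (0 : Vec n) B)
  have htψ : Tendsto (fun k => t (ψ k)) atTop (𝓝 0) := htlim.comp hψ.tendsto_atTop
  have hξψ : Tendsto (fun k => ξ (ψ k)) atTop (𝓝 0) :=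
    squeeze_zero (fun k => (hξ (ψ k)).1.le) (fun k => (hξ (ψ k)).2.le) htψ
  have hpt : ∀ s : ℕ → ℝ, Tendsto s atTop (𝓝 0) →
      Tendsto (fun k => ((u₀ + s k • d, w (ψ k)) : Vec n × Vec n)) atTop (𝓝 (u₀, w')) := by
    intro s hs0
    refine Tendsto.prodMk_nhds ?_ hlim
    have : Tendsto (fun k => u₀ + s k • d) atTop (𝓝 (u₀ + (0 : ℝ) • d)) :=
      tendsto_const_nhds.add (hs0.smul_const d)
    simpa using this
  have hw' : g u₀ w' ≤ v := by
    have h8 : Tendsto (fun k => g (u₀ + t (ψ k) • d) (w (ψ k))) atTop (𝓝 (g u₀ w')) :=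
      (hg.tendsto (u₀, w')).comp (hpt _ htψ)
    exact le_of_tendsto' h8 fun k => hw1 (ψ k)
  have hfin : ∑ l, d l * gU l u₀ w' ≤ 0 := by
    have h9 : Tendsto (fun k => ∑ l, d l * gU l (u₀ + ξ (ψ k) • d) (w (ψ k))) atTop
        (𝓝 (∑ l, d l * gU l u₀ w')) := by
      refine tendsto_finsetSum _ fun l _ => ?_
      exact (((hgU l).tendsto (u₀, w')).comp (hpt _ hξψ)).const_mul (d l)
    exact le_of_tendsto' h9 fun k => hs (ψ k)
  have h10 := h2 (φ w') (subset_convexHull ℝ _ ⟨w', hw', rfl⟩)
  rw [hfd] at h10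
  have h11 : ∑ l, d l * φ w' l = ∑ l, d l * gU l u₀ w' := rfl
  linarith

/-- Existence of Fritz John points. -/
theorem fje : S_FJE := by
  classical
  intro n g gU gW u₀ v B hg hgU hd hdw hvg hex hB
  have h0 := zero_mem n g gU u₀ v B hg hgU hd hvg hex hB
  obtain ⟨ι, hι, z, c, hz, haf, hc, hc1, hc0⟩ := eq_pos_convex_span_of_mem_convexHull h0
  have hcard : Fintype.card ι ≤ n + 1 := by
    refine haf.card_le_finrank_succ.trans ?_
    have h1 := Submodule.finrank_le (vectorSpan ℝ (Set.range z))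
    have h2 : Module.finrank ℝ (Vec n) = n := Module.finrank_fin_fun ℝ
    exact Nat.add_le_add_right (h1.trans h2.le) 1
  have hne : Nonempty ι := by
    by_contra hn
    rw [not_nonempty_iff] at hn
    rw [Finset.univ_eq_empty, Finset.sum_empty] at hc1
    exact zero_ne_one hc1
  have hpos : 0 < Fintype.card ι := Fintype.card_pos
  obtain ⟨r, hr⟩ : ∃ r, Fintype.card ι = r + 1 := ⟨Fintype.card ι - 1, by omega⟩
  let e : ι ≃ Fin (r + 1) := Fintype.equivFinOfCardEq hr
  have hpre : ∀ i, ∃ w : Vec n, g u₀ w ≤ v ∧ (fun l => gU l u₀ w : Vec n) = z i := by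
    intro i
    obtain ⟨w, hw, he⟩ := hz ⟨i, rfl⟩
    exact ⟨w, hw, he⟩
  choose w hw1 hw2 using hpre
  have hval : ∀ i, g u₀ (w i) = v := fun i => le_antisymm (hw1 i) (hvg _)
  refine ⟨r, by omega, fun i => w (e.symm i), fun i => c (e.symm i), fun i => hc _, ?_, ?_,
    fun i => hval _, ?_, ?_⟩
  · rw [← hc1]
    exact Equiv.sum_comp e.symm c
  · intro i j hij
    have h1 : z (e.symm i) = z (e.symm j) := by
      rw [← hw2, ← hw2]
      simp only at hij
      rw [hij]
    exact e.symm.injective (haf.injective h1)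
  · intro i j
    have hmin : IsLocalMin (fun t : ℝ => g u₀ (w (e.symm i) + t • (Pi.single j 1 : Vec n))) 0 := by
      refine Filter.Eventually.of_forall fun t => ?_
      simp only [zero_smul, add_zero]
      rw [hval]
      exact hvg _
    exact hmin.hasDerivAt_eq_zero (hdw u₀ (w (e.symm i)) j)
  · intro l
    have h2 : ∑ i, c i * gU l u₀ (w i) = 0 := by
      have := congrFun hc0 l
      simp only [Finset.sum_apply, Pi.smul_apply, smul_eq_mul, Pi.zero_apply] at this
      rw [← this]
      refine Finset.sum_congr rfl fun i _ => ?_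
      rw [← hw2 i]
    rw [← h2]
    exact Equiv.sum_comp e.symm fun i => c i * gU l u₀ (w i)

end Pool.Agent.W451.IP
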